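import Mathlib

/-!
# MP_821da1_nt, ExactFamilies (helper4): definitions

Complete proof: table `proofs`, id 341. A family `F(t, x, y) = ∑ c j k l t^j x^k y^l`
(`j ≤ m`, `k + l ≤ n`) is given by its coefficients `c`.
`FF` its value in any commutative ring, `Fj` the value of the coefficient of `t^j`,
`ES` the family in the coordinates `s = 1/t`, `ξ = 1/x`, `Z = y/x`
(`F(t,x,y) = t^m x^n ES(1/t, 1/x, y/x)`), `ft = f(t; 1, Z)`, `gz = f_m(1, Z)`,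
`sw` exchanges `x` and `y`, `ng` replaces `t` by `-t`, `Adm` the hypotheses,
`Sol` the polynomial solutions, `BD`, `B3` degree bounds, `Lam n I` the exponents `(i, j, k)` of the
monomials `u^i x^j y^k` with `i < I`, `k < n`, `j + k ≤ 10 n`,
`F3` the family as an element of `ℚ[u][x][y]`, `t = A + u`; `G3`, `G3'` a combination of the monomials
in `ℚ[u][x][y]`, in `ℚ[u][y][x]`.
-/

namespace Pool.Agent.H4.EX

open Finset Polynomial

/-- the value at `(t, x, y)` of the family with the coefficients `c j k l` (of `t^j x^k y^l`) -/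
def FF {R : Type*} [CommRing R] (n m : ℕ) (c : ℕ → ℕ → ℕ → ℤ) (t x y : R) : R :=
  ∑ j ∈ range (m + 1), ∑ k ∈ range (n + 1), ∑ l ∈ range (n + 1 - k),
    (c j k l : R) * t ^ j * x ^ k * y ^ l

/-- the value at `(x, y)` of the coefficient of `t^j` -/
def Fj {R : Type*} [CommRing R] (n : ℕ) (c : ℕ → ℕ → ℕ → ℤ) (j : ℕ) (x y : R) : R :=
  ∑ k ∈ range (n + 1), ∑ l ∈ range (n + 1 - k), (c j k l : R) * x ^ k * y ^ l

/-- the family in the coordinates `s = 1/t`, `ξ = 1/x`, `Z = y/x` -/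
def ES (n m : ℕ) (c : ℕ → ℕ → ℕ → ℤ) (s ξ Z : ℝ) : ℝ :=
  ∑ j ∈ range (m + 1), ∑ k ∈ range (n + 1), ∑ l ∈ range (n + 1 - k),
    (c j k l : ℝ) * s ^ (m - j) * ξ ^ (n - k - l) * Z ^ l

/-- `f(t; 1, Z)`, the part of degree `n` -/
noncomputable def ft (n m : ℕ) (c : ℕ → ℕ → ℕ → ℤ) : ℤ[X][X] :=
  ∑ l ∈ range (n + 1), C (∑ j ∈ range (m + 1), C (c j (n - l) l) * X ^ j) * X ^ l

/-- `f_m(1, Z)` -/
noncomputable def gz (n m : ℕ) (c : ℕ → ℕ → ℕ → ℤ) : ℤ[X] :=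
  ∑ l ∈ range (n + 1), C (c m (n - l) l) * X ^ l

/-- `x` and `y` exchanged -/
def sw (c : ℕ → ℕ → ℕ → ℤ) (j k l : ℕ) : ℤ := c j l k

/-- `t` replaced by `-t` -/
def ng (c : ℕ → ℕ → ℕ → ℤ) (j k l : ℕ) : ℤ := (-1) ^ j * c j k l

/-- the hypotheses, for the side `|y| ≤ |x|` -/
structure Adm (n m : ℕ) (c : ℕ → ℕ → ℕ → ℤ) : Prop where
  n5 : 5 ≤ n
  m1 : 1 ≤ m
  deg : (ft n m c).natDegree = n
  irr : Irreducible ((ft n m c).map (mapRingHom (Int.castRingHom ℂ)))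
  sq : ((gz n m c).map (Int.castRingHom ℚ)).Separable

/-- `(x, y)` is the value at `a` of a polynomial solution -/
def Sol (n m : ℕ) (c : ℕ → ℕ → ℕ → ℤ) (a x y : ℤ) : Prop :=
  ∃ r1 r2 : ℚ[X], FF n m c X r1 r2 = 0 ∧ r1.eval (a : ℚ) = x ∧ r2.eval (a : ℚ) = y

/-- degree at most `D` in each of the two variables -/
def BD (D : ℕ) (P : ℚ[X][X]) : Prop := P.natDegree ≤ D ∧ ∀ i, (P.coeff i).natDegree ≤ D

/-- degree at most `D` in each of the three variables -/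
def B3 (D : ℕ) (P : ℚ[X][X][X]) : Prop := P.natDegree ≤ D ∧ ∀ i, BD D (P.coeff i)

/-- the exponents `(i, j, k)` of the monomials `u^i x^j y^k` -/
def Lam (n I : ℕ) : Finset (ℕ × ℕ × ℕ) :=
  (range I ×ˢ range (10 * n + 1) ×ˢ range n).filter fun v => v.2.1 + v.2.2 ≤ 10 * n

/-- the family as an element of `ℚ[u][x][y]`, `t = A + u` -/
noncomputable def F3 (n m : ℕ) (c : ℕ → ℕ → ℕ → ℤ) (A : ℕ) : ℚ[X][X][X] :=
  FF n m c (C (C (X + C (A : ℚ)))) (C X) X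

/-- a combination of the monomials, in `ℚ[u][x][y]` -/
noncomputable def G3 {n I : ℕ} (v : Lam n I → ℚ) : ℚ[X][X][X] :=
  ∑ l : Lam n I, C (C (C (v l) * X ^ l.1.1)) * (C X) ^ l.1.2.1 * X ^ l.1.2.2

/-- the same combination, in `ℚ[u][y][x]` -/
noncomputable def G3' {n I : ℕ} (v : Lam n I → ℚ) : ℚ[X][X][X] :=
  ∑ l : Lam n I, C (C (C (v l) * X ^ l.1.1)) * X ^ l.1.2.1 * (C X) ^ l.1.2.2

end Pool.Agent.H4.EX
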