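import Pool.Agent.H4.EX.Defs

/-! # [H4 EX TPH] Binary forms and one-variable polynomials

`hm d g = ∑_(i ≤ d) C (g.coeff i) X0^(d-i) X1^i`. `hm_mul`: for `natDegree g ≤ a`, `natDegree h ≤ b`: `hm (a+b) (g h) = hm a g * hm b h` (`coeff_mul`, antidiagonals, or by linearity from monomials: `hm` is additive and `hm (a+b) (X^i * X^j) = hm a X^i * hm b X^j` for `i ≤ a`, `j ≤ b`; write `g = ∑_(i ≤ a) C g_i X^i`).
`hm_ev`: `aeval ![1, X] (hm d g) = g` for `natDegree g ≤ d` (`as_sum_range'`). `hm_zero`: `eval 0 (hm d g) = 0` for `d ≥ 1` (every monomial `X0^(d-i) X1^i` vanishes at the origin).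
`form_irr`: `P = hm n g` irreducible, `n ≥ 2`. If `natDegree g < n` then `P = hm 1 1 * hm (n-1) g` with `hm 1 1 = X0`; both factors vanish at the origin, so neither is a unit (`IsUnit.map`): contradiction. So `natDegree g = n`. `g` is not a unit (degree `n ≥ 2`, `k` a domain). If `g = u v` (`a = natDegree u`, `b = natDegree v`, `a + b = n`): `P = hm a u * hm b v`, one factor is a unit, say
the first, and `u = aeval ![1, X] (hm a u)` is a unit. `form_sqf`: `g = d d v`, `a = natDegree d`, `2 a ≤ n`, `natDegree v ≤ n - 2 a` (`g ≠ 0` since `P ≠ 0`, `k` a domain): `P = hm a d * hm a d * hm (n - 2a) v`, so `hm a d` is a unit and so is `d`. -/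

namespace Pool.Agent.H4.EX

open Finset Polynomial

/-- the binary form of degree `d` of a polynomial -/
noncomputable def hm {k : Type*} [CommRing k] (d : ℕ) (g : k[X]) : MvPolynomial (Fin 2) k :=
  ∑ i ∈ range (d + 1), MvPolynomial.C (g.coeff i) * MvPolynomial.X 0 ^ (d - i) *
    MvPolynomial.X 1 ^ i

private theorem th_add {k : Type*} [CommRing k] (d : ℕ) (g h : k[X]) : hm d (g + h) = hm d g + hm d h := by
  unfold hm
  rw [← Finset.sum_add_distrib]
  refine Finset.sum_congr rfl fun i _ => ?_
  rw [Polynomial.coeff_add, map_add]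
  ring

private theorem th_zero {k : Type*} [CommRing k] (d : ℕ) : hm d (0 : k[X]) = 0 := by
  unfold hm
  refine Finset.sum_eq_zero fun i _ => ?_
  rw [Polynomial.coeff_zero, map_zero, zero_mul, zero_mul]

private theorem th_mono {k : Type*} [CommRing k] {d n : ℕ} (hn : n ≤ d) (r : k) :
    hm d (C r * X ^ n) = MvPolynomial.C r * MvPolynomial.X 0 ^ (d - n) * MvPolynomial.X 1 ^ n := by
  unfold hm
  rw [Finset.sum_eq_single n]
  · rw [Polynomial.coeff_C_mul_X_pow, if_pos rfl]
  · intro i _ hi
    rw [Polynomial.coeff_C_mul_X_pow, if_neg hi, map_zero, zero_mul, zero_mul]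
  · intro h
    exact absurd (Finset.mem_range.2 (by omega)) h

private theorem th_mul {k : Type*} [CommRing k] (a b : ℕ) (g h : k[X]) (hg : g.natDegree ≤ a) (hh : h.natDegree ≤ b) :
    hm (a + b) (g * h) = hm a g * hm b h := by
  refine Polynomial.induction_with_natDegree_le (fun g => hm (a + b) (g * h) = hm a g * hm b h) a ?_ ?_ ?_ g hg
  · show hm (a + b) (0 * h) = hm a 0 * hm b h
    rw [zero_mul, th_zero, th_zero, zero_mul]
  · intro n r _ hn
    show hm (a + b) (C r * X ^ n * h) = hm a (C r * X ^ n) * hm b h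
    refine Polynomial.induction_with_natDegree_le
      (fun h => hm (a + b) (C r * X ^ n * h) = hm a (C r * X ^ n) * hm b h) b ?_ ?_ ?_ h hh
    · show hm (a + b) (C r * X ^ n * 0) = hm a (C r * X ^ n) * hm b 0
      rw [mul_zero, th_zero, th_zero, mul_zero]
    · intro m t _ hm'
      show hm (a + b) (C r * X ^ n * (C t * X ^ m)) = hm a (C r * X ^ n) * hm b (C t * X ^ m)
      have e : (C r * X ^ n * (C t * X ^ m) : k[X]) = C (r * t) * X ^ (n + m) := by
        rw [C_mul, pow_add]
        ring
      rw [e, th_mono (by omega), th_mono hn, th_mono hm', MvPolynomial.C_mul,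
        show a + b - (n + m) = (a - n) + (b - m) by omega, pow_add, pow_add]
      ring
    · intro f1 f2 _ _ h1 h2
      show hm (a + b) (C r * X ^ n * (f1 + f2)) = hm a (C r * X ^ n) * hm b (f1 + f2)
      have h1' : hm (a + b) (C r * X ^ n * f1) = hm a (C r * X ^ n) * hm b f1 := h1
      have h2' : hm (a + b) (C r * X ^ n * f2) = hm a (C r * X ^ n) * hm b f2 := h2
      rw [mul_add, th_add, th_add, h1', h2', mul_add]
  · intro f1 f2 _ _ h1 h2
    show hm (a + b) ((f1 + f2) * h) = hm a (f1 + f2) * hm b h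
    have h1' : hm (a + b) (f1 * h) = hm a f1 * hm b h := h1
    have h2' : hm (a + b) (f2 * h) = hm a f2 * hm b h := h2
    rw [add_mul, th_add, th_add, h1', h2', add_mul]

private theorem th_ev {k : Type*} [CommRing k] {d : ℕ} {g : k[X]} (hg : g.natDegree ≤ d) :
    MvPolynomial.aeval ![(1 : k[X]), X] (hm d g) = g := by
  unfold hm
  rw [map_sum]
  conv_rhs => rw [Polynomial.as_sum_range_C_mul_X_pow' g (show g.natDegree < d + 1 by omega)]
  refine Finset.sum_congr rfl fun i _ => ?_
  rw [map_mul, map_mul, map_pow, map_pow, MvPolynomial.aeval_X, MvPolynomial.aeval_X, MvPolynomial.aeval_C]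
  simp

private theorem th_unit {k : Type*} [CommRing k] {d : ℕ} {g : k[X]} (hg : g.natDegree ≤ d)
    (h : IsUnit (hm d g)) : IsUnit g := by
  have h1 := h.map (MvPolynomial.aeval ![(1 : k[X]), X])
  rwa [th_ev hg] at h1

private theorem th_origin {k : Type*} [CommRing k] {d : ℕ} (hd : 1 ≤ d) (g : k[X]) :
    MvPolynomial.eval (0 : Fin 2 → k) (hm d g) = 0 := by
  unfold hm
  rw [map_sum]
  refine Finset.sum_eq_zero fun i hi => ?_
  rw [Finset.mem_range] at hi
  rw [map_mul, map_mul, map_pow, map_pow, MvPolynomial.eval_X, MvPolynomial.eval_X]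
  rcases Nat.eq_zero_or_pos i with h | h
  · subst h
    rw [Pi.zero_apply, zero_pow (by omega), mul_zero, zero_mul]
  · rw [Pi.zero_apply, Pi.zero_apply, zero_pow (show i ≠ 0 by omega), mul_zero]

private theorem th_not_unit {k : Type*} [CommRing k] [IsDomain k] {d : ℕ} (hd : 1 ≤ d) (g : k[X]) :
    ¬ IsUnit (hm d g) := by
  intro h
  have h1 := h.map (MvPolynomial.eval (0 : Fin 2 → k))
  rw [th_origin hd] at h1
  exact not_isUnit_zero h1

theorem form_irr {k : Type*} [CommRing k] [IsDomain k] {n : ℕ} (hn : 2 ≤ n) {g : k[X]}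
    (hg : g.natDegree ≤ n) (h : Irreducible (hm n g)) : Irreducible g ∧ g.natDegree = n := by
  have hdeg : g.natDegree = n := by
    by_contra hne
    have h1 : hm (1 + (n - 1)) ((1 : k[X]) * g) = hm 1 1 * hm (n - 1) g :=
      th_mul 1 (n - 1) 1 g (by simp) (by omega)
    rw [one_mul, show 1 + (n - 1) = n by omega] at h1
    rcases h.isUnit_or_isUnit h1 with h2 | h2
    · exact th_not_unit le_rfl 1 h2
    · exact th_not_unit (by omega) g h2
  refine ⟨⟨fun hu => ?_, fun u v huv => ?_⟩, hdeg⟩
  · have := Polynomial.natDegree_eq_zero_of_isUnit hu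
    omega
  · have hg0 : g ≠ 0 := by
      rintro rfl
      simp at hdeg
      omega
    have hu0 : u ≠ 0 := by
      rintro rfl
      rw [zero_mul] at huv
      exact hg0 huv
    have hv0 : v ≠ 0 := by
      rintro rfl
      rw [mul_zero] at huv
      exact hg0 huv
    have h2 := Polynomial.natDegree_mul hu0 hv0
    rw [← huv, hdeg] at h2
    have h3 := th_mul u.natDegree v.natDegree u v le_rfl le_rfl
    rw [← h2, ← huv] at h3
    rcases h.isUnit_or_isUnit h3 with h4 | h4
    · exact Or.inl (th_unit le_rfl h4)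
    · exact Or.inr (th_unit le_rfl h4)

theorem form_sqf {k : Type*} [CommRing k] [IsDomain k] {n : ℕ} {g : k[X]}
    (hg : g.natDegree ≤ n) (h : Squarefree (hm n g)) : Squarefree g := by
  intro d hd
  obtain ⟨v, hv⟩ := hd
  have hg0 : g ≠ 0 := by
    rintro rfl
    rw [th_zero] at h
    exact not_squarefree_zero h
  have hd0 : d ≠ 0 := by
    rintro rfl
    rw [zero_mul, zero_mul] at hv
    exact hg0 hv
  have hv0 : v ≠ 0 := by
    rintro rfl
    rw [mul_zero] at hv
    exact hg0 hv
  have h1 := Polynomial.natDegree_mul (mul_ne_zero hd0 hd0) hv0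
  rw [Polynomial.natDegree_mul hd0 hd0, ← hv] at h1
  have h2 := th_mul d.natDegree d.natDegree d d le_rfl le_rfl
  have h3 := th_mul (d.natDegree + d.natDegree) (n - (d.natDegree + d.natDegree)) (d * d) v
    (by rw [Polynomial.natDegree_mul hd0 hd0]) (by omega)
  rw [show d.natDegree + d.natDegree + (n - (d.natDegree + d.natDegree)) = n by omega, ← hv, h2] at h3
  exact th_unit le_rfl (h _ (Dvd.intro _ h3.symm))

end Pool.Agent.H4.EX
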